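import Pool.Agent.helper54.GR3.Spec

/-!
# Project g2: (MP_af9036_an x25, MP_70a088_an x10): Theorem G (closest returns) for `n = 2` (and all `n ≥ 2`)

Paper: /team-store/MP_af9036_G2_helper33.md (addition to /team-store/MP_af9036_G_helper88.md and /team-store/MP_af9036_G3_helper54.md). Everything of `Pool/Agent/helper88/GR/Spec.lean` and `Pool/Agent/helper54/GR3/Spec.lean` is used.
NEW IDEA: ZERO COUNTING. `B` has `p` simple poles and is `O(1/w)`, so it has at most `p - 1` zeros; there are `p` disjoint cells, so some cell contains NO zero of `B`. There `τ` has one simple pole and no zero: its phase turns by `-1`, while the rotation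
symmetry wants `-2` modulo `n`. The growth of `τ` on the cell is bounded by `S = ∑_{i,j ≤ p} |A_j/A_i|`, Borel-Caratheodory gives `τ ≈ 1/(A_p w)` at the scale `R/(C (1 + log S))`.

RULES. File `Pool/Agent/<seat>/GR2/XX.lean`: `import Pool.Agent.helper33.GR2.Spec`, `set_option autoImplicit false`,
`open Complex Metric Set Filter Topology MeasureTheory`, `open MPS (om)`, `open PPS (pre TT fd)`, `open XPS (Df er dens tau)`, `open Pool.Agent.helper16.Multibrot`, `noncomputable section`, `namespace GR`,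
`theorem XX (h : YY_stmt) ... : XX_stmt`. Hypotheses may be: other statements of this file (no circles), all statements of helper88's spec (GR), of helper54's spec (GR3: `PH3_stmt`), of `PPS`, `MPS`, `XPS`, `V3`, `NLF` (all proved).
Auxiliary lemmas prefixed `XX_`. No `sorry`, no straight double quotes in comments.
-/

set_option autoImplicit false

open Complex Metric Set Filter Topology MeasureTheory
open MPS (om)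
open PPS (pre TT fd)
open XPS (Df er dens tau)
open Pool.Agent.helper16.Multibrot

noncomputable section

namespace GR

/-! ## Definitions -/

/-- the numerator of `B`: `B w * ∏ (w - Z i) = Nu w`. -/
def Nu (n : ℕ) (c : ℂ) (p q : ℕ) (w : ℂ) : ℂ :=
  ∑ j ∈ Finset.Icc 1 p, xc n c p q j / A n c j * ∏ i ∈ (Finset.Icc 1 p).erase j, (w - Z n c i)

/-- `S = ∑_{i,j ≤ p} |A_j/A_i|`. -/
def SS (n : ℕ) (c : ℂ) (p : ℕ) : ℝ :=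
  ∑ i ∈ Finset.Icc 1 p, ∑ j ∈ Finset.Icc 1 p, ‖A n c j‖ / ‖A n c i‖

/-! ## Zero counting -/

/-- ZR1 (medium, pure): zero counting.
PROOF. The polynomial `P = ∑_(j∈s) C (q j) * ∏_(l∈s.erase j) (X - C (z l))` has degree `< card s` (each summand has degree `≤ card s - 1`: `Polynomial.natDegree_prod_le`/`degree_prod`), and `P.eval (z i) = q i ∏_(l≠i) (z i - z l) ≠ 0`, so `P ≠ 0`. If the claim fails, choose a root `w i ∈ U i` for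
every `i ∈ s`; they are different for different `i` (disjoint sets), so `P` has at least `card s` roots: contradiction to `Polynomial.card_roots'` (`s.image w ⊆ P.roots.toFinset`). -/
def ZR1_stmt : Prop := ∀ (ι : Type) [DecidableEq ι] (s : Finset ι) (z q : ι → ℂ) (U : ι → Set ℂ), s.Nonempty →
  (∀ i ∈ s, ∀ j ∈ s, i ≠ j → Disjoint (U i) (U j)) → (∀ i ∈ s, ∀ j ∈ s, i ≠ j → z i ≠ z j) → (∀ i ∈ s, q i ≠ 0) →
  ∃ i ∈ s, ∀ w ∈ U i, ∑ j ∈ s, q j * ∏ l ∈ s.erase j, (w - z l) ≠ 0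

/-- ZRO (short/medium): some cell contains no zero. uses: ZR1, DIS, CEL, NAT.
PROOF. ZR1 with `s = Icc 1 p`, `z = Z n c`, `q j = xc j/A j`, `U j = G (p - j) '' ball 0 (R/(8C))` (DIS). `Z p ∈ ball 0 (R/(8C))` (`‖Z p‖ = R/X ≤ R/(16C)`, NAT), so `Z j = G (p - j) (Z p) ∈ U j` (`Tow.val`), so the `Z j` are different. `xc j ≠ 0`: `‖xc j - 1‖ ≤ ‖lam‖ ≤ 2C/X ≤ 1/8` (NAT, CEL). `m = p - i`. -/
def ZRO_stmt : Prop := ∀ (C : ℝ) (n : ℕ) (c : ℂ) (p q : ℕ) (G : ℕ → ℂ → ℂ), KQ C → Ret n c p q →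
  Tow n c p q G → 16 * C ≤ X n c p q → ∃ m < p, ∀ w ∈ ball (0 : ℂ) (R n c q / (8 * C)), Nu n c p q (G m w) ≠ 0

/-- KFN (medium): the function `K = A_p (w - Z_p) τ` on a cell without zeros. uses: DIS, TOP, NAT.
PROOF. `j = p - m`, `g = G m`, `Om = ball 0 (R/(8C))`, `Z p ∈ Om`, `g (Z p) = Z j`. `D = dslope g (Z p)`: `D w = (g w - Z j)/(w - Z p)` for `w ≠ Z p`, `D (Z p) = deriv g (Z p) = A j/A p` (TOP); holomorphic on `Om` (`Complex.differentiableOn_dslope`), `≠ 0` (`g` injective, TOP; `deriv g ≠ 0`, TOP).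
`P w = ∏_(i ≠ j) (g w - Z i) ≠ 0` on `Om`: `Z i = G (p - i) (Z p)` is in `G (p - i) '' Om`, disjoint from `g '' Om` (DIS, `p - i ≠ m`). `K w = A p * (deriv g w)^2 * Nu (g w)/(D w * P w)`. For `w ≠ Z p`: `B (g w) = Nu (g w)/((g w - Z j) P w)` (common denominator: `∑_j q_j/(x - z_j) * ∏_i (x - z_i) = Nu x`,
`Finset.mul_prod_erase`). At `Z p`: `Nu (Z j) = xc j/A j * ∏_(i≠j) (Z j - Z i)` (all other summands contain the factor `Z j - Z j`), so `K (Z p) = A p (A j/A p)² (xc j/A j)/(A j/A p) = xc j`. -/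
def KFN_stmt : Prop := ∀ (C : ℝ) (n : ℕ) (c : ℂ) (p q : ℕ) (G : ℕ → ℂ → ℂ) (m : ℕ), KQ C → Ret n c p q →
  Tow n c p q G → 16 * C ≤ X n c p q → m < p → (∀ w ∈ ball (0 : ℂ) (R n c q / (8 * C)), Nu n c p q (G m w) ≠ 0) →
  ∃ K : ℂ → ℂ, DifferentiableOn ℂ K (ball 0 (R n c q / (8 * C))) ∧ (∀ w ∈ ball (0 : ℂ) (R n c q / (8 * C)), K w ≠ 0) ∧
    K (Z n c p) = xc n c p q (p - m) ∧ ∀ w ∈ ball (0 : ℂ) (R n c q / (8 * C)), w ≠ Z n c p →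
      K w = A n c p * (w - Z n c p) * tau (B n c p q) G m w

/-- KUB (medium): the upper bound on a circle. uses: DIS, TOP, CEL, NAT.
PROOF. `r₀ = R/(8C)`, `j = p - m`, `g = G m`. `‖Z p‖ = R/X ≤ r₀/16`, `‖w - Z p‖ = r₀/2`, so `ball w (r₀/4) ⊆ Om = ball 0 r₀`. `KQ` for `g` on `ball w (r₀/4)` (`g` is injective): `ball (g w) ((r₀/4)‖deriv g w‖/C) ⊆ g '' ball w (r₀/4)`; no `Z i` is in this set (`i ≠ j`: `Z i ∈ G (p-i) '' Om`, DIS;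
`i = j`: `Z j = g (Z p)`, `g` injective, `Z p ∉ ball w (r₀/4)`). So `‖g w - Z i‖ ≥ r₀‖deriv g w‖/(4C)` for all `i ∈ Icc 1 p`, `‖B (g w)‖ ≤ ∑ 2/‖A i‖ * 4C/(r₀‖deriv g w‖)` (`‖xc i‖ ≤ 1 + ‖lam‖ ≤ 2`, CEL). `KD` on `ball (Z p) (R/2) ⊆ ball 0 R` at `w` (`r₀/2 ≤ R/16 < R/4`):
`‖deriv g w‖ ≤ (1 + D)‖deriv g (Z p)‖ = (1 + D)‖A j‖/‖A p‖` (TOP). `‖A p (w - Z p) (deriv g w)² B (g w)‖ ≤ ‖A p‖ (r₀/2) ‖deriv g w‖² (8C/(r₀‖deriv g w‖)) ∑ 1/‖A i‖ = 4C‖A p‖‖deriv g w‖ ∑ 1/‖A i‖ ≤ 4C(1+D)‖A j‖ ∑ 1/‖A i‖ ≤ 4C(1+D) SS`. -/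
def KUB_stmt : Prop := ∀ (C D : ℝ) (n : ℕ) (c : ℂ) (p q : ℕ) (G : ℕ → ℂ → ℂ) (m : ℕ), KQ C → KD D → Ret n c p q →
  Tow n c p q G → 128 * C ≤ X n c p q → m < p → ∀ w : ℂ, ‖w - Z n c p‖ = R n c q / (16 * C) →
  ‖A n c p * (w - Z n c p) * tau (B n c p q) G m w‖ ≤ 4 * C * (1 + D) * SS n c p

/-- BCZ (short/medium, pure): a bounded function without zeros is nearly constant near the centre.
PROOF. Let `Q = 1 + log (2M) ≥ 1`. `F = exp ∘ h` on `ball a r` (`Pool.Agent.helper98.ILF.exists_lift_exp`, `Pool/Agent/helper98/ILF/Lift.lean`, with `h a = log (F a)`), `k z = h (a + z) - h a`, `k 0 = 0`, `exp (k z) = F (a + z)/F a`, `Re (k z) = log ‖F (a+z)‖ - log ‖F a‖ ≤ log M + log 2 ≤ Q`.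
`Complex.borelCaratheodory_zero` (Mathlib): `‖k z‖ ≤ 2 Q ‖z‖/(r - ‖z‖) ≤ 4Q‖z‖/r ≤ 1/64` for `‖z‖ ≤ r/(256 Q) ≤ r/2`. `‖exp k - 1‖ ≤ 2‖k‖` for `‖k‖ ≤ 1` (`Complex.norm_exp_sub_one_le`). -/
def BCZ_stmt : Prop := ∀ (F : ℂ → ℂ) (a : ℂ) (r M : ℝ), 0 < r → 1 ≤ M → DifferentiableOn ℂ F (ball a r) →
  (∀ w ∈ ball a r, F w ≠ 0 ∧ ‖F w‖ ≤ M) → 1 / 2 ≤ ‖F a‖ →
  ∀ w : ℂ, ‖w - a‖ ≤ r / (256 * (1 + Real.log (2 * M))) → ‖F w / F a - 1‖ ≤ 1 / 32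

/-- LC2 (medium): the local form of `τ` in a cell without zeros. uses: KFN, KUB, BCZ, CEL, NAT.
PROOF. `K` from KFN; on `ball (Z p) (R/(16C))` (its closed ball is in `ball 0 (R/(8C))`) `‖K‖ ≤ M := 4C(1+D) SS` by the maximum principle (`Complex.norm_le_of_forall_mem_frontier_norm_le`) and KUB. `M ≥ 1` (`SS ≥ 1`: the summand `i = j = 1`). `K (Z p) = xc`, `‖xc - 1‖ ≤ ‖lam‖ ≤ 2C/X ≤ 1/64` (NAT, CEL). BCZ with `a = Z p`,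
`r = R/(16C)`; `2ρ = r/(256 Q)`, `Q = 1 + log (2M)`. For `ρ/2 < ‖w‖ < ρ`: `‖w - Z p‖ ≤ ρ + ρ/64 ≤ 2ρ`. `τ = K w/(A_p (w - Z_p))`, so `τ * A_p * w = xc * (K w/K (Z p)) * (w/(w - Z p))`, `‖w/(w - Z p) - 1‖ = ‖Z p‖/‖w - Z p‖ ≤ (ρ/64)/(ρ/2 - ρ/64) = 1/31`; the product differs from `1` by at most
`(1 + 1/64)(1 + 1/32)(1 + 1/31) - 1 < 1/4`. (`w ≠ Z p` as `‖Z p‖ ≤ ρ/64 < ‖w‖`.) -/
def LC2_stmt : Prop := ∀ (C D : ℝ) (n : ℕ) (c : ℂ) (p q : ℕ) (G : ℕ → ℂ → ℂ) (m : ℕ) (ρ : ℝ), KQ C → KD D →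
  Ret n c p q → Tow n c p q G → 128 * C ≤ X n c p q → m < p →
  (∀ w ∈ ball (0 : ℂ) (R n c q / (8 * C)), Nu n c p q (G m w) ≠ 0) →
  ρ = R n c q / (8192 * C * (1 + Real.log (2 * (4 * C * (1 + D) * SS n c p)))) → ‖Z n c p‖ ≤ ρ / 64 →
  ∀ w : ℂ, ρ / 2 < ‖w‖ → ‖w‖ < ρ →
    ‖tau (B n c p q) G m w - (A n c p)⁻¹ * w ^ (-1 : ℤ)‖ ≤ 1 / 4 * ‖(A n c p)⁻¹ * w ^ (-1 : ℤ)‖

/-- COR2 (LONG, copy of helper23/GR/CORE.lean): the Core Theorem with the factor `1 + log SS`, all `n ≥ 2`. uses: V3.KO1, V3.KO3, NAT, MSB, ERI, ENG, TOW, CEL, SYM, ZRO, LC2, PH3.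
PROOF. `C, D, CE` as in CORE. `SS ≥ 1`. `Q = 1 + log (2 (4C(1+D) SS)) ≤ Q₁ (1 + log SS)`, `Q₁ = 1 + log (8C(1+D)) ≥ 1`. If `X ≤ 128 C + 2` or `X ≤ 524288 C Q` the claim holds (`κ (1 + log X) ≥ 1`, `1 + log SS ≥ 1`). Otherwise `ρ = R/(8192 C Q)` satisfies `‖Z p‖ = R/X ≤ ρ/64`. TOW, ZRO: `m`; LC2. For `w` in the annulus
`ρ/2 < ‖w‖ < ρ` PH3 with `d = -1`, `κ' = (A p)⁻¹`, `h k = tau (om^k w)` (LC2 at `om^k w`; `¬ (n:ℤ) ∣ -1 + 2`): the integrand of SYM (`m₀ = m`, `E = 3ε`) is `≥ (n/2)‖κ' w^(-1)‖ ≥ (n/2)/(‖A p‖ρ)`. The annulus has area `≥ 2ρ²` (copy CORE_area) and is in `ball 0 (R/(8C))`. So `nρ/‖A p‖ ≤ 2n·3ε`,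
`ρ ≤ 6 CE κ ‖Z p‖ (1 + log X) = 6 CE κ (R/X)(1 + log X)`, `X ≤ 49152 C CE κ Q (1 + log X)`. -/
def COR2_stmt : Prop := ∃ K : ℝ, 1 ≤ K ∧ ∀ n : ℕ, 2 ≤ n → ∀ (c : ℂ) (p q : ℕ) (κ : ℝ), Ret n c p q → 1 ≤ κ →
  ‖S n c p - lam n c p q * S n c q‖ ≤ κ * (‖Z n c p‖ / ‖A n c p‖) * (1 + Real.log (X n c p q)) →
  X n c p q ≤ K * κ * (1 + Real.log (X n c p q)) * (1 + Real.log (SS n c p))

/-- G2: THEOREM G with the factor `1 + log SS`, all `n ≥ 2` (theorem G2F (h : COR2_stmt) ... : G2_stmt). PROOF. COPY of helper85/GR/GF.lean (`K₀` replaced by `K₀ (1 + log SS)`, `SS ≥ 1` as `p ≥ 2` and `A j ≠ 0`). -/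
def G2_stmt : Prop := ∃ K : ℝ, ∀ n : ℕ, 2 ≤ n → ∀ c ∈ multibrot n, ∀ p : ℕ, 2 ≤ p → ∀ x : ℝ, 1 ≤ x →
  (∀ j, 1 ≤ j → j < p → x * ‖Z n c p‖ ≤ ‖Z n c j‖) →
  Metric.infDist c (hyperbolic n) ≤ K * (1 + Real.log (SS n c p)) * (1 + Real.log x) / x

/-- GL2: THEOREM G' with the factor `1 + log SS`, all `n ≥ 2` (theorem GL2F (h : COR2_stmt) ... : GL2_stmt). PROOF. COPY of helper9/GR/GLF.lean with `2 ≤ n`. -/
def GL2_stmt : Prop := ∃ K : ℝ, ∀ n : ℕ, 2 ≤ n → ∀ (c : ℂ) (μ : ℂ → ℂ),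
  Pool.Agent.helper98.ILF.IsInvariantLineField (fun z : ℂ => z ^ n + c) μ → ∀ p : ℕ, 2 ≤ p → ∀ x : ℝ, 1 ≤ x →
  (∀ j, 1 ≤ j → j < p → x * ‖Z n c p‖ ≤ ‖Z n c j‖) →
  ‖∫ z : ℂ, μ z / (z - c)‖ * x ≤ K * (1 + Real.log (SS n c p)) * (1 + Real.log x)

/-! ## The size of `SS` for `n = 2` -/

/-- AEX (medium): the critical orbit does not return exponentially fast.
PROOF. Suppose `‖Z m‖ < (1/6)^m/4`, `η = (1/6)^m/4`. For `‖a‖, ‖b‖ ≤ 3`: `‖a² - b²‖ ≤ 6‖a - b‖`. `‖Z i‖ ≤ 2` (BDM). For `‖z‖ ≤ 2η`: by induction `‖f^i z - Z i‖ ≤ 6^(i-1)‖z‖² ≤ 1` for `1 ≤ i ≤ m` (so `‖f^i z‖ ≤ 3`), and `‖f^i z - f^i z'‖ ≤ 6^(i-1)·4η‖z - z'‖`. For `i = m`: `6^(m-1)·4η = 1/6`: `‖f^m z‖ ≤ η + (1/6)η·... ≤ 2η`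
(`6^(m-1)(2η)² = η/6`), `f^m` is a contraction (`1/6`) of `closedBall 0 (2η)` into `closedBall 0 (7η/6)`: a fixed point `z*` (`ContractingWith.exists_fixedPoint'`, or `IsCompact` minimum of `‖f^m z - z‖`), `‖z*‖ ≤ 7η/6 < 2η`, and `‖deriv (f^m) z*‖ ≤ 1/6` (`HasDerivAt.le_of_lipschitzOn`). So `c ∈ hyperbolic 2`. -/
def AEX_stmt : Prop := ∀ c ∈ multibrot 2, c ∉ hyperbolic 2 → ∀ m : ℕ, 1 ≤ m → (1 / 6 : ℝ) ^ m / 4 ≤ ‖Z 2 c m‖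

/-- BEX (short): two deep visits are far apart in time. uses: AEX, BDM.
PROOF. If both norms are `< (1/6)^t/8`: `‖Z (m+t) - Z t‖ = ‖f^t (Z m) - f^t 0‖ ≤ 6^(t-1)‖Z m‖² ≤ 6^(t-1)(1/6)^(2t)/64 ≤ (1/6)^t/384` (Lipschitz constant `6` on `closedBall 0 3`, all points have norm `≤ 2`), and `‖Z t‖ ≥ (1/6)^t/4` (AEX): `‖Z (m+t)‖ ≥ (1/6)^t (1/4 - 1/384) ≥ (1/6)^t/8`. -/
def BEX_stmt : Prop := ∀ c ∈ multibrot 2, c ∉ hyperbolic 2 → ∀ m t : ℕ, 1 ≤ m → 1 ≤ t →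
  (1 / 6 : ℝ) ^ t / 8 ≤ max ‖Z 2 c m‖ ‖Z 2 c (m + t)‖

/-- CSM (medium, pure): the sum of the depths.
PROOF. For `s ∈ ℕ` let `N s = #{k ∈ Icc 1 p | s < y k}`. For `y ≤ p`: `max y 0 ≤ #{s ∈ range p | s < y}` (`⌈y⌉₊` numbers). So the sum is `≤ ∑_(s<p) N s` (swap). Two members `k < k'` of the set of `N s` satisfy `k' - k > s` (`min (y k) (y k') ≤ k' - k`), so `k ↦ k/(s+1)` is injective on it with values `≤ p/(s+1)`: `N s ≤ 1 + p/(s+1)`.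
`∑_(s<p) (1 + p/(s+1)) = p + p H_p ≤ p (2 + log p)` (`harmonic_le_one_add_log`). -/
def CSM_stmt : Prop := ∀ (p : ℕ) (y : ℕ → ℝ), 1 ≤ p → (∀ k, 1 ≤ k → y k ≤ k) →
  (∀ m t, 1 ≤ m → 1 ≤ t → min (y m) (y (m + t)) ≤ t) →
  ∑ k ∈ Finset.Icc 1 p, max (y k) 0 ≤ p * (2 + Real.log p)

/-- WEX (medium): the size of `SS`. uses: AEX, BEX, CSM, BDM, NAT.
PROOF. CSM with `y k = log (1/(8‖Z k‖))/log 6`: `y k ≤ k` (AEX: `1/(8‖Z k‖) ≤ 6^k/2`), `min ≤ t` (BEX: the larger norm is `≥ 6^(-t)/8`). `log⁺ (1/‖Z k‖) ≤ log 8 + log 6 · max (y k) 0`, so `∑_(k≤p) log⁺ (1/‖Z k‖) ≤ p log 8 + log 6 · p (2 + log p) ≤ 6 p (1 + log p)` (`log 8 ≤ 2.1`, `log 6 ≤ 1.8`). `‖A i‖ = ∏_(k∈Ico 1 i) 2‖Z k‖`, so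
`1/‖A i‖ ≤ exp (6p(1+log p))`, `‖A j‖ ≤ 4^p` (BDM). `SS ≤ p² 4^p exp (6p(1+log p))`, `1 + log SS ≤ 1 + 2 log p + 1.4 p + 6p(1+log p) ≤ 20 p (1 + log p)`. -/
def WEX_stmt : Prop := ∀ c ∈ multibrot 2, c ∉ hyperbolic 2 → ∀ p : ℕ, 1 ≤ p →
  1 + Real.log (SS 2 c p) ≤ 20 * (p * (1 + Real.log p))

/-- G2P (short): THEOREM G for the quadratic family. uses: G2, WEX.
PROOF. `c ∈ hyperbolic 2`: `infDist = 0`, right side `≥ 0` (take `K ≥ 0`: replace `K` of G2 by `|K|`). Otherwise G2 with `n = 2` and WEX, constant `20 |K|`. -/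
def G2P_stmt : Prop := ∃ K : ℝ, ∀ c ∈ multibrot 2, ∀ p : ℕ, 2 ≤ p → ∀ x : ℝ, 1 ≤ x →
  (∀ j, 1 ≤ j → j < p → x * ‖Z 2 c p‖ ≤ ‖Z 2 c j‖) →
  Metric.infDist c (hyperbolic 2) ≤ K * (p * (1 + Real.log p)) * (1 + Real.log x) / x

end GR
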